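import Pool.Agent.H3.CA.DF

/-!
# Part D, (DG): sizes of unions
-/

set_option linter.unusedVariables false

open Ordinal Order Set
open scoped ZFSet

namespace CAA

open SF

namespace DG

open DF

/-- the first function `h ξ` from `C` onto `x` -/
noncomputable def pk (h A b C x : V) : V :=
  (⋃₀ (b.sep fun y => ∃ ξ ∈ A, y = app h ξ ∧ Onto y C x ∧ ∀ η ∈ ξ, ¬ Onto (app h η) C x) : ZFSet)

theorem tm_pk : Tm ZFm (fun _ v => pk (v 0) (v 1) (v 2) (v 3) (v 4)) := by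
  refine (Tm.sUnion (Tm.sep (R := fun _ v => ∃ ξ ∈ v 2, v 0 = app (v 1) ξ ∧
    Onto (v 0) (v 4) (v 5) ∧ ∀ η ∈ ξ, ¬ Onto (app (v 1) η) (v 4) (v 5)) ?_ (Tm.var 2))).congr
    fun M k v hv => rfl
  refine (Dfb.bex (R := fun _ v => v 1 = app (v 2) (v 0) ∧ Onto (v 1) (v 5) (v 6) ∧
    ∀ η ∈ v 0, ¬ Onto (app (v 2) η) (v 5) (v 6)) ktr_zfm (Tm.var 2) ?_).congr
    fun M k v hv => Iff.rfl
  refine (Dfb.eq (Tm.var 1) (Tm.app (Tm.var 2) (Tm.var 0))).and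
    ((Dfb.onto (Tm.var 1) (Tm.var 5) (Tm.var 6)).and ?_)
  exact (Dfb.ball (R := fun _ v => ¬ Onto (app (v 3) (v 0)) (v 6) (v 7)) ktr_zfm (Tm.var 0)
    (Dfb.onto (Tm.app (Tm.var 3) (Tm.var 0)) (Tm.var 6) (Tm.var 7)).not).congr
    fun M k v hv => Iff.rfl

theorem pk_onto {h b C x : V} {α : Ordinal.{0}} (hh : Onto h α.toZFSet b) {y : V} (hy : y ∈ b)
    (ho : Onto y C x) : Onto (pk h α.toZFSet b C x) C x := by
  obtain ⟨a, ha, hay⟩ := onto_app hh hy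
  obtain ⟨β, hβ, rfl⟩ := Ordinal.mem_toZFSet_iff.1 ha
  have hex : ∃ β, β < α ∧ Onto (app h β.toZFSet) C x := ⟨β, hβ, by rw [hay]; exact ho⟩
  obtain ⟨γ, ⟨hγ, hγo⟩, hmin⟩ : ∃ γ, (γ < α ∧ Onto (app h γ.toZFSet) C x) ∧
      ∀ δ < γ, ¬ (δ < α ∧ Onto (app h δ.toZFSet) C x) := by
    have hw := (inferInstance : WellFoundedLT Ordinal.{0}).wf
    exact ⟨hw.min {β | β < α ∧ Onto (app h β.toZFSet) C x} hex, hw.min_mem _ hex,
      fun δ hδ hδ' => hw.not_lt_min _ hδ' hδ⟩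
  have hγm : γ.toZFSet ∈ α.toZFSet := Ordinal.toZFSet_mem_toZFSet_iff.2 hγ
  have e1 : (b.sep fun y => ∃ ξ ∈ α.toZFSet, y = app h ξ ∧ Onto y C x ∧
      ∀ η ∈ ξ, ¬ Onto (app h η) C x) = {app h γ.toZFSet} := by
    ext z
    rw [ZFSet.mem_sep, ZFSet.mem_singleton]
    constructor
    · rintro ⟨-, ξ, hξ, rfl, h1, h2⟩
      obtain ⟨δ, hδ, rfl⟩ := Ordinal.mem_toZFSet_iff.1 hξ
      rcases lt_trichotomy δ γ with h3 | h3 | h3
      · exact absurd ⟨hδ, h1⟩ (hmin δ h3)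
      · rw [h3]
      · exact absurd hγo (h2 _ (Ordinal.toZFSet_mem_toZFSet_iff.2 h3))
    · rintro rfl
      refine ⟨app_mem hh.1 hγm, _, hγm, rfl, hγo, fun η hη h1 => ?_⟩
      obtain ⟨δ, hδ, rfl⟩ := Ordinal.mem_toZFSet_iff.1 hη
      exact hmin δ hδ ⟨hδ.trans hγ, h1⟩
  unfold pk
  rw [e1, ZFSet.sUnion_singleton]
  exact hγo

end DG

open DF DG

theorem pf_DG : T_DG := by
  intro M kc C hC hg s hs hS hx
  have k : ZFm M := kc.toZFm
  rcases sm_cases k hS with rfl | ⟨g, x₁, hMg, hog, hx₁, hMx₁⟩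
  · left
    ext q
    simp
  rcases ZFSet.eq_empty_or_nonempty (⋃₀ s : ZFSet) with h | ⟨u₀, hu₀⟩
  · exact Or.inl h
  have hMs : M (⋃₀ s : ZFSet) := k.union _ hs
  have hMu₀ : M u₀ := k.trans _ hMs _ hu₀
  -- collection
  have hR : Dfb ZFm (fun _ v => v 1 = ∅ ∨ Onto (v 0) (v 2) (v 1)) :=
    (Dfb.eq (Tm.var 1) Tm.empty).or (Dfb.onto (Tm.var 0) (Tm.var 2) (Tm.var 1))
  obtain ⟨φ, hφ⟩ := hR
  have hvC : In M (fun _ => C) := in1 hC
  obtain ⟨b, hb, hb2⟩ := k.coll φ (fun _ => C) s hvC hs (by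
    intro x hxs
    have hMx := k.trans _ hs _ hxs
    rcases hx x hxs with h | ⟨f, hf, ho⟩
    · exact ⟨C, hC, (hφ M k _ ((hvC.cons hMx).cons hC)).2 (Or.inl h)⟩
    · exact ⟨f, hf, (hφ M k _ ((hvC.cons hMx).cons hf)).2 (Or.inr ho)⟩)
  have hb3 : ∀ x ∈ s, x = ∅ ∨ ∃ f ∈ b, Onto f C x := by
    intro x hxs
    obtain ⟨f, hf, hsat⟩ := hb2 x hxs
    have hMx := k.trans _ hs _ hxs
    have hMf := k.trans _ hb _ hf
    rcases (hφ M k _ ((hvC.cons hMx).cons hMf)).1 hsat with h | h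
    · exact Or.inl h
    · exact Or.inr ⟨f, hf, h⟩
  obtain ⟨α, h, hMh, hh⟩ := kc.wo b hb
  have hMα : M α.toZFSet := by
    have h1 : M (dm h) := (Tm.dm (Tm.var 0)).1 M k (fun _ => h) fun _ => hMh
    have h2 : dm h = α.toZFSet := by
      ext a
      rw [mem_dm]
      constructor
      · rintro ⟨y, hy⟩
        exact (ZFSet.pair_mem_prod.1 (hh.1.1 hy)).1
      · intro ha
        exact ⟨_, pair_app_mem hh.1 ha⟩
    rwa [h2] at h1
  -- the function; variables: c C g h α b u₀ s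
  have hTm : Tm ZFm (fun _ u => sel
      (fst (u 0) ∈ u 1 ∧ snd (u 0) ∈ u 1 ∧
        app (pk (u 3) (u 4) (u 5) (u 1) (app (u 2) (fst (u 0)))) (snd (u 0)) ∈
          (⋃₀ (u 7) : ZFSet))
      (app (pk (u 3) (u 4) (u 5) (u 1) (app (u 2) (fst (u 0)))) (snd (u 0))) (u 6)) := by
    have h1 : Tm ZFm (fun _ u =>
        app (pk (u 3) (u 4) (u 5) (u 1) (app (u 2) (fst (u 0)))) (snd (u 0))) := by
      refine Tm.app ?_ (Tm.snd (Tm.var 0))
      exact tm_pk.comp (args [fun _ u => u 3, fun _ u => u 4, fun _ u => u 5, fun _ u => u 1,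
        fun _ u => app (u 2) (fst (u 0))]) (tm_args _ (by
          intro a ha
          simp only [List.mem_cons, List.not_mem_nil, or_false] at ha
          rcases ha with rfl | rfl | rfl | rfl | rfl
          · exact Tm.var 3
          · exact Tm.var 4
          · exact Tm.var 5
          · exact Tm.var 1
          · exact Tm.app (Tm.var 2) (Tm.fst (Tm.var 0))))
    exact Tm.sel ((Dfb.mem (Tm.fst (Tm.var 0)) (Tm.var 1)).and
      ((Dfb.mem (Tm.snd (Tm.var 0)) (Tm.var 1)).and (Dfb.mem h1 (Tm.sUnion (Tm.var 7))))) h1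
      (Tm.var 6)
  refine sm_fun k hTm
    (cons C (cons g (cons h (cons α.toZFSet (cons b (cons u₀ (cons s fun _ => C)))))))
    ((((((((in1 hC).cons hs).cons hMu₀).cons hb).cons hMα).cons hMh).cons hMg).cons hC) rfl ?_ ?_
  · intro c hc
    show sel (fst c ∈ C ∧ snd c ∈ C ∧
      app (pk h α.toZFSet b C (app g (fst c))) (snd c) ∈ (⋃₀ s : ZFSet))
      (app (pk h α.toZFSet b C (app g (fst c))) (snd c)) u₀ ∈ (⋃₀ s : ZFSet)
    by_cases h1 : fst c ∈ C ∧ snd c ∈ C ∧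
      app (pk h α.toZFSet b C (app g (fst c))) (snd c) ∈ (⋃₀ s : ZFSet)
    · rw [sel_pos h1]
      exact h1.2.2
    · rwa [sel_neg h1]
  · intro y hy
    obtain ⟨x, hxs, hyx⟩ := ZFSet.mem_sUnion.1 hy
    obtain ⟨c, hc, hcx⟩ := onto_app hog hxs
    have hne : x ≠ ∅ := by
      rintro rfl
      exact ZFSet.notMem_empty _ hyx
    obtain ⟨f, hf, ho⟩ := (hb3 x hxs).resolve_left hne
    have hpk := pk_onto hh hf ho
    obtain ⟨d, hd, hdy⟩ := onto_app hpk hyx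
    refine ⟨ZFSet.pair c d, hg.pr _ hc _ hd, ?_⟩
    show sel (fst (ZFSet.pair c d) ∈ C ∧ snd (ZFSet.pair c d) ∈ C ∧
      app (pk h α.toZFSet b C (app g (fst (ZFSet.pair c d)))) (snd (ZFSet.pair c d)) ∈
        (⋃₀ s : ZFSet))
      (app (pk h α.toZFSet b C (app g (fst (ZFSet.pair c d)))) (snd (ZFSet.pair c d))) u₀ = y
    rw [fst_pair, snd_pair, hcx, hdy, sel_pos ⟨hc, hd, hy⟩]

end CAA
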