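import Pool.Agent.H9.CA.Tool

/-!
# Part D, (DF): sizes
-/

set_option linter.unusedVariables false

open Ordinal Order Set
open scoped ZFSet

namespace CAA

open SF

namespace DF

variable {M : V → Prop} {C x y z : V}

theorem mem_of (h : Gd C) {x y : V} (hx : x ∈ C) (hy : y ∈ x) : y ∈ C := h.tr x hx hy

theorem nS_mem (h : Gd C) (n : ℕ) : nS n ∈ C := mem_of h h.om (nS_mem_om n)

theorem emp_mem (h : Gd C) : (∅ : V) ∈ C := by
  have := nS_mem h 0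
  rwa [nS_zero] at this

theorem lc_mem (h : Gd C) {l : List V} (hl : ∀ p ∈ l, p ∈ C) : lc l ∈ C := by
  induction l with
  | nil => exact emp_mem h
  | cons a l ih =>
    exact h.pr _ (hl a (by simp)) _ (ih fun p hp => hl p (by simp [hp]))

theorem cd_mem (h : Gd C) (φ : Fml) : cd φ ∈ C := by
  induction φ with
  | mem i j => exact h.pr _ (nS_mem h _) _ (h.pr _ (nS_mem h _) _ (nS_mem h _))
  | eq i j => exact h.pr _ (nS_mem h _) _ (h.pr _ (nS_mem h _) _ (nS_mem h _))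
  | prd i => exact h.pr _ (nS_mem h _) _ (nS_mem h _)
  | neg φ ih => exact h.pr _ (nS_mem h _) _ ih
  | and φ ψ ih1 ih2 => exact h.pr _ (nS_mem h _) _ (h.pr _ ih1 _ ih2)
  | ex φ ih => exact h.pr _ (nS_mem h _) _ ih

theorem sm_fun (k : ZFm M) {G : (V → Prop) → (ℕ → V) → V} (hG : Tm ZFm G) (v : ℕ → V)
    (hv : In M v) (h0 : v 0 = C) (h1 : ∀ c ∈ C, G M (cons c v) ∈ z)
    (h2 : ∀ y ∈ z, ∃ c ∈ C, G M (cons c v) = y) : Sm M C z := by
  right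
  have hM := (Tm.resS (Tm.var 0) hG).1 M k v hv
  simp only [h0] at hM
  refine ⟨_, hM, isFunc_resS _ _ _ h1, fun b hb => ?_⟩
  obtain ⟨c, hc, rfl⟩ := h2 b hb
  exact ⟨c, hc, pair_mem_resS.2 ⟨hc, rfl⟩⟩

theorem onto_app {f : V} (h : Onto f C x) {b : V} (hb : b ∈ x) : ∃ c ∈ C, app f c = b := by
  obtain ⟨c, hc, hp⟩ := h.2 b hb
  exact ⟨c, hc, app_eq (svl_of_isFunc h.1) hp⟩

theorem sm_mem (k : ZFm M) (h : Sm M C x) : M x := by
  rcases h with rfl | ⟨f, hf, ho⟩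
  · exact k.mempty
  · have h1 : rg f = x := by
      ext b
      rw [mem_rg]
      constructor
      · rintro ⟨a, hab⟩
        exact (ZFSet.pair_mem_prod.1 (ho.1.1 hab)).2
      · intro hb
        obtain ⟨a, -, hab⟩ := ho.2 b hb
        exact ⟨a, hab⟩
    have h2 : M (rg f) := (Tm.rg (Tm.var 0)).1 M k (fun _ => f) fun _ => hf
    rwa [h1] at h2

theorem sm_cases (k : ZFm M) (h : Sm M C x) : x = ∅ ∨
    ∃ f x₀, M f ∧ Onto f C x ∧ x₀ ∈ x ∧ M x₀ := by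
  rcases h with h | ⟨f, hf, ho⟩
  · exact Or.inl h
  · rcases ZFSet.eq_empty_or_nonempty x with h | ⟨x₀, hx₀⟩
    · exact Or.inl h
    · exact Or.inr ⟨f, x₀, hf, ho, hx₀, k.trans _ (sm_mem k (Or.inr ⟨f, hf, ho⟩)) _ hx₀⟩

theorem in1 (k : M C) : In M fun _ => C := fun _ => k

/-- subsets -/
theorem sm_sub (k : ZFm M) (hC : M C) (hx : M x) (hy : Sm M C y) (hxy : x ⊆ y) : Sm M C x := by
  rcases ZFSet.eq_empty_or_nonempty x with h | ⟨x₀, hx₀⟩
  · exact Or.inl h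
  rcases sm_cases k hy with h | ⟨f, -, hf, ho, -, -⟩
  · subst h
    exact absurd (hxy hx₀) (ZFSet.notMem_empty _)
  have hMx₀ := k.trans _ hx _ hx₀
  refine sm_fun k (G := fun _ u => sel (app (u 3) (u 0) ∈ u 2) (app (u 3) (u 0)) (u 4))
    (Tm.sel (Dfb.mem (Tm.app (Tm.var 3) (Tm.var 0)) (Tm.var 2)) (Tm.app (Tm.var 3) (Tm.var 0))
      (Tm.var 4)) (cons C (cons x (cons f (cons x₀ fun _ => C))))
    (((((in1 hC).cons hMx₀).cons hf).cons hx).cons hC) rfl ?_ ?_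
  · intro c hc
    show sel (app f c ∈ x) (app f c) x₀ ∈ x
    by_cases h : app f c ∈ x
    · rwa [sel_pos h]
    · rwa [sel_neg h]
  · intro b hb
    obtain ⟨c, hc, hcb⟩ := onto_app ho (hxy hb)
    refine ⟨c, hc, ?_⟩
    show sel (app f c ∈ x) (app f c) x₀ = b
    rw [hcb, sel_pos hb]

theorem sm_sub_self (k : ZFm M) (hC : M C) (hx : M x) (h : x ⊆ C) : Sm M C x := by
  rcases ZFSet.eq_empty_or_nonempty x with h' | ⟨x₀, hx₀⟩
  · exact Or.inl h'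
  have hMx₀ := k.trans _ hx _ hx₀
  refine sm_fun k (G := fun _ u => sel (u 0 ∈ u 2) (u 0) (u 3))
    (Tm.sel (Dfb.mem (Tm.var 0) (Tm.var 2)) (Tm.var 0) (Tm.var 3))
    (cons C (cons x (cons x₀ fun _ => C))) ((((in1 hC).cons hMx₀).cons hx).cons hC) rfl ?_ ?_
  · intro c hc
    show sel (c ∈ x) c x₀ ∈ x
    by_cases h : c ∈ x
    · rwa [sel_pos h]
    · rwa [sel_neg h]
  · intro b hb
    refine ⟨b, h hb, ?_⟩
    show sel (b ∈ x) b x₀ = b
    rw [sel_pos hb]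

theorem sm_prod (k : ZFm M) (hC : M C) (hg : Gd C) (hx : Sm M C x) (hy : Sm M C y) :
    Sm M C (ZFSet.prod x y) := by
  rcases sm_cases k hx with rfl | ⟨f, x₀, hf, hof, hx₀, hMx₀⟩
  · left
    ext q
    simp [ZFSet.mem_prod]
  rcases sm_cases k hy with rfl | ⟨g, y₀, hg', hog, hy₀, hMy₀⟩
  · left
    ext q
    simp [ZFSet.mem_prod]
  refine sm_fun k (G := fun _ u => sel (fst (u 0) ∈ u 1 ∧ snd (u 0) ∈ u 1)
      (ZFSet.pair (app (u 2) (fst (u 0))) (app (u 3) (snd (u 0)))) (u 4))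
    (Tm.sel ((Dfb.mem (Tm.fst (Tm.var 0)) (Tm.var 1)).and (Dfb.mem (Tm.snd (Tm.var 0)) (Tm.var 1)))
      (Tm.pair (Tm.app (Tm.var 2) (Tm.fst (Tm.var 0))) (Tm.app (Tm.var 3) (Tm.snd (Tm.var 0))))
      (Tm.var 4)) (cons C (cons f (cons g (cons (ZFSet.pair x₀ y₀) fun _ => C))))
    (((((in1 hC).cons (k.mpair hMx₀ hMy₀)).cons hg').cons hf).cons hC) rfl ?_ ?_
  · intro c hc
    show sel (fst c ∈ C ∧ snd c ∈ C) (ZFSet.pair (app f (fst c)) (app g (snd c)))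
      (ZFSet.pair x₀ y₀) ∈ ZFSet.prod x y
    by_cases h : fst c ∈ C ∧ snd c ∈ C
    · rw [sel_pos h]
      exact ZFSet.pair_mem_prod.2 ⟨app_mem hof.1 h.1, app_mem hog.1 h.2⟩
    · rw [sel_neg h]
      exact ZFSet.pair_mem_prod.2 ⟨hx₀, hy₀⟩
  · intro q hq
    obtain ⟨a, ha, b, hb, rfl⟩ := ZFSet.mem_prod.1 hq
    obtain ⟨c, hc, hca⟩ := onto_app hof ha
    obtain ⟨d, hd, hdb⟩ := onto_app hog hb
    refine ⟨ZFSet.pair c d, hg.pr _ hc _ hd, ?_⟩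
    show sel (fst (ZFSet.pair c d) ∈ C ∧ snd (ZFSet.pair c d) ∈ C)
      (ZFSet.pair (app f (fst (ZFSet.pair c d))) (app g (snd (ZFSet.pair c d))))
      (ZFSet.pair x₀ y₀) = _
    rw [fst_pair, snd_pair, sel_pos ⟨hc, hd⟩, hca, hdb]

theorem sm_union (k : ZFm M) (hC : M C) (hg : Gd C) (hx : Sm M C x) (hy : Sm M C y) :
    Sm M C (x ∪ y) := by
  rcases sm_cases k hx with rfl | ⟨f, x₀, hf, hof, hx₀, hMx₀⟩
  · have : (∅ : V) ∪ y = y := by ext q; simp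
    rwa [this]
  rcases sm_cases k hy with rfl | ⟨g, y₀, hg', hog, hy₀, hMy₀⟩
  · have : x ∪ (∅ : V) = x := by ext q; simp
    rwa [this]
  refine sm_fun k (G := fun _ u => sel (fst (u 0) = ∅)
      (sel (snd (u 0) ∈ u 1) (app (u 2) (snd (u 0))) (u 4))
      (sel (snd (u 0) ∈ u 1) (app (u 3) (snd (u 0))) (u 4)))
    (Tm.sel (Dfb.eq (Tm.fst (Tm.var 0)) Tm.empty)
      (Tm.sel (Dfb.mem (Tm.snd (Tm.var 0)) (Tm.var 1)) (Tm.app (Tm.var 2) (Tm.snd (Tm.var 0)))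
        (Tm.var 4))
      (Tm.sel (Dfb.mem (Tm.snd (Tm.var 0)) (Tm.var 1)) (Tm.app (Tm.var 3) (Tm.snd (Tm.var 0)))
        (Tm.var 4)))
    (cons C (cons f (cons g (cons x₀ fun _ => C))))
    (((((in1 hC).cons hMx₀).cons hg').cons hf).cons hC) rfl ?_ ?_
  · intro c hc
    show sel (fst c = ∅) (sel (snd c ∈ C) (app f (snd c)) x₀)
      (sel (snd c ∈ C) (app g (snd c)) x₀) ∈ x ∪ y
    rw [ZFSet.mem_union]
    by_cases h : fst c = ∅
    · rw [sel_pos h]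
      left
      by_cases h' : snd c ∈ C
      · rw [sel_pos h']; exact app_mem hof.1 h'
      · rwa [sel_neg h']
    · rw [sel_neg h]
      by_cases h' : snd c ∈ C
      · rw [sel_pos h']; exact Or.inr (app_mem hog.1 h')
      · rw [sel_neg h']; exact Or.inl hx₀
  · intro q hq
    rcases ZFSet.mem_union.1 hq with hq | hq
    · obtain ⟨c, hc, hcq⟩ := onto_app hof hq
      refine ⟨ZFSet.pair ∅ c, hg.pr _ (emp_mem hg) _ hc, ?_⟩
      show sel (fst (ZFSet.pair ∅ c) = ∅)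
        (sel (snd (ZFSet.pair ∅ c) ∈ C) (app f (snd (ZFSet.pair ∅ c))) x₀)
        (sel (snd (ZFSet.pair ∅ c) ∈ C) (app g (snd (ZFSet.pair ∅ c))) x₀) = q
      rw [fst_pair, snd_pair, sel_pos rfl, sel_pos hc, hcq]
    · obtain ⟨c, hc, hcq⟩ := onto_app hog hq
      refine ⟨ZFSet.pair (nS 1) c, hg.pr _ (nS_mem hg 1) _ hc, ?_⟩
      show sel (fst (ZFSet.pair (nS 1) c) = ∅)
        (sel (snd (ZFSet.pair (nS 1) c) ∈ C) (app f (snd (ZFSet.pair (nS 1) c))) x₀)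
        (sel (snd (ZFSet.pair (nS 1) c) ∈ C) (app g (snd (ZFSet.pair (nS 1) c))) x₀) = q
      have h1 : nS 1 ≠ ∅ := by
        rw [← nS_zero]
        intro h
        exact absurd (nS_inj.1 h) (by norm_num)
      rw [fst_pair, snd_pair, sel_neg h1, sel_pos hc, hcq]

theorem sm_Lw (k : ZFm M) (hC : M C) (hg : Gd C) (hx : Sm M C x) : Sm M C (Lw x) := by
  rcases sm_cases k hx with rfl | ⟨f, x₀, hf, hof, hx₀, hMx₀⟩
  · refine sm_fun k (G := fun _ _ => ∅) Tm.empty (fun _ => C) (in1 hC) rfl ?_ ?_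
    · intro c hc
      exact mem_Lw.2 ⟨[], by simp, rfl⟩
    · intro q hq
      obtain ⟨l, hl, rfl⟩ := mem_Lw.1 hq
      refine ⟨∅, emp_mem hg, ?_⟩
      cases l with
      | nil => rfl
      | cons a l => exact absurd (hl a (by simp)) (ZFSet.notMem_empty _)
  · refine sm_fun k (G := fun _ u => sel (u 0 ∈ Lw (u 1)) (mpS (u 2) (u 0)) ∅)
      (Tm.sel (Dfb.mem (Tm.var 0) (Tm.Lw (Tm.var 1))) (Tm.mpS (Tm.var 2) (Tm.var 0)) Tm.empty)
      (cons C (cons f fun _ => C)) (((in1 hC).cons hf).cons hC) rfl ?_ ?_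
    · intro c hc
      show sel (c ∈ Lw C) (mpS f c) ∅ ∈ Lw x
      by_cases h : c ∈ Lw C
      · rw [sel_pos h]
        obtain ⟨l, hl, rfl⟩ := mem_Lw.1 h
        rw [mpS_lc]
        refine mem_Lw.2 ⟨_, ?_, rfl⟩
        intro p hp
        obtain ⟨q, hq, rfl⟩ := List.mem_map.1 hp
        exact app_mem hof.1 (hl q hq)
      · rw [sel_neg h]
        exact mem_Lw.2 ⟨[], by simp, rfl⟩
    · intro q hq
      obtain ⟨l, hl, rfl⟩ := mem_Lw.1 hq
      have key : ∀ l : List V, (∀ p ∈ l, p ∈ x) → ∃ l' : List V, (∀ p ∈ l', p ∈ C) ∧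
          l'.map (app f) = l := by
        intro l
        induction l with
        | nil => exact fun _ => ⟨[], by simp, rfl⟩
        | cons a l ih =>
          intro h
          obtain ⟨l', h1, h2⟩ := ih fun p hp => h p (by simp [hp])
          obtain ⟨c, hc, hca⟩ := onto_app hof (h a (by simp))
          refine ⟨c :: l', ?_, by simp [hca, h2]⟩
          intro p hp
          rcases List.mem_cons.1 hp with rfl | hp
          · exact hc
          · exact h1 p hp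
      obtain ⟨l', h1, h2⟩ := key l hl
      refine ⟨lc l', lc_mem hg h1, ?_⟩
      show sel (lc l' ∈ Lw C) (mpS f (lc l')) ∅ = lc l
      rw [sel_pos (mem_Lw.2 ⟨l', h1, rfl⟩), mpS_lc, h2]

theorem sm_image (k : ZFm M) (hC : M C) {f : V} (hx : Sm M C x) (hf : M f) (hs : Svl f)
    (hd : dm f = x) : Sm M C (rg f) := by
  rcases sm_cases k hx with h | ⟨g, x₀, hg, hog, hx₀, hMx₀⟩
  · left
    ext b
    rw [mem_rg]
    constructor
    · rintro ⟨a, hab⟩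
      have : a ∈ dm f := mem_dm.2 ⟨b, hab⟩
      rw [hd, h] at this
      exact absurd this (ZFSet.notMem_empty _)
    · intro hb
      exact absurd hb (ZFSet.notMem_empty _)
  refine sm_fun k (G := fun _ u => app (u 3) (app (u 2) (u 0)))
    (Tm.app (Tm.var 3) (Tm.app (Tm.var 2) (Tm.var 0))) (cons C (cons g (cons f fun _ => C)))
    ((((in1 hC).cons hf).cons hg).cons hC) rfl ?_ ?_
  · intro c hc
    show app f (app g c) ∈ rg f
    have h1 : app g c ∈ dm f := by rw [hd]; exact app_mem hog.1 hc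
    obtain ⟨b, hb⟩ := mem_dm.1 h1
    rw [app_eq hs hb]
    exact mem_rg.2 ⟨_, hb⟩
  · intro b hb
    obtain ⟨a, hab⟩ := mem_rg.1 hb
    have ha : a ∈ x := by rw [← hd]; exact mem_dm.2 ⟨b, hab⟩
    obtain ⟨c, hc, hca⟩ := onto_app hog ha
    refine ⟨c, hc, ?_⟩
    show app f (app g c) = b
    rw [hca, app_eq hs hab]

/-- the relation of the definable closure -/
noncomputable def RD (N Y : V) : V :=
  (ZFSet.prod (ZFSet.prod CD (Lw (Y ∩ N))) N).sep fun t => ∀ x ∈ N,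
    (ZFSet.pair x (ZFSet.pair x (snd (fst t))) ∈ sS N ∅ (fst (fst t)) ↔ x = snd t)

theorem tm_RD : Tm ZFm (fun _ v => RD (v 0) (v 1)) := by
  refine (Tm.sep (R := fun _ v => ∀ x ∈ v 1,
    (ZFSet.pair x (ZFSet.pair x (snd (fst (v 0)))) ∈ sS (v 1) ∅ (fst (fst (v 0))) ↔
      x = snd (v 0))) ?_ (Tm.prod (Tm.prod Tm.CD (Tm.Lw (Tm.inter (Tm.var 1) (Tm.var 0))))
        (Tm.var 0))).congr fun M k v hv => rfl
  refine (Dfb.ball (R := fun _ v => (ZFSet.pair (v 0) (ZFSet.pair (v 0) (snd (fst (v 1)))) ∈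
    sS (v 2) ∅ (fst (fst (v 1))) ↔ v 0 = snd (v 1))) ktr_zfm (Tm.var 1) ?_).congr
      fun M k v hv => Iff.rfl
  refine (Dfb.mem (Tm.pair (Tm.var 0) (Tm.pair (Tm.var 0) (Tm.snd (Tm.fst (Tm.var 1)))))
    (Tm.sS (Tm.var 2) Tm.empty (Tm.fst (Tm.fst (Tm.var 1))))).iff
    (Dfb.eq (Tm.var 0) (Tm.snd (Tm.var 1)))

theorem pair_mem_RD {N Y q z : V} : ZFSet.pair q z ∈ RD N Y ↔ z ∈ N ∧ ∃ (φ : Fml) (l : List V),
    q = ZFSet.pair (cd φ) (lc l) ∧ (∀ p ∈ l, p ∈ Y ∧ p ∈ N) ∧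
    ∀ x ∈ N, (Sat (· ∈ N) φ (cons x fun i => l.getD i x) ↔ x = z) := by
  unfold RD
  rw [ZFSet.mem_sep, ZFSet.pair_mem_prod, fst_pair, snd_pair]
  have e1 : ∀ (φ : Fml) (l : List V), (∀ p ∈ l, p ∈ Y ∧ p ∈ N) → ∀ x ∈ N,
      (ZFSet.pair x (ZFSet.pair x (lc l)) ∈ sS N ∅ (cd φ) ↔
        Sat (· ∈ N) φ (cons x fun i => l.getD i x)) := by
    intro φ l hl x hx
    have h1 := sat_iff_sS (x := N) (d := x) (l := x :: l) (φ := φ) hx (by
      intro p hp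
      rcases List.mem_cons.1 hp with rfl | hp
      · exact hx
      · exact (hl p hp).2)
    rw [getD_cons] at h1
    exact h1.symm
  constructor
  · rintro ⟨⟨h1, h2⟩, h3⟩
    obtain ⟨a, ha, s, hs, rfl⟩ := ZFSet.mem_prod.1 h1
    obtain ⟨φ, rfl⟩ := mem_CD.1 ha
    obtain ⟨l, hl, rfl⟩ := mem_Lw.1 hs
    rw [fst_pair, snd_pair] at h3
    have hl' : ∀ p ∈ l, p ∈ Y ∧ p ∈ N := fun p hp => ZFSet.mem_inter.1 (hl p hp)
    refine ⟨h2, φ, l, rfl, hl', fun x hx => ?_⟩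
    rw [← e1 φ l hl' x hx]
    exact h3 x hx
  · rintro ⟨h2, φ, l, rfl, hl, h3⟩
    refine ⟨⟨ZFSet.pair_mem_prod.2 ⟨cd_mem_CD φ, mem_Lw.2 ⟨l, fun p hp =>
      ZFSet.mem_inter.2 (hl p hp), rfl⟩⟩, h2⟩, fun x hx => ?_⟩
    rw [fst_pair, snd_pair, e1 φ l hl x hx]
    exact h3 x hx

theorem rg_RD (N Y : V) : rg (RD N Y) = Dcl N Y := by
  ext z
  rw [mem_rg]
  unfold Dcl
  rw [ZFSet.mem_sep]
  constructor
  · rintro ⟨q, hq⟩
    obtain ⟨h1, φ, l, -, h2, h3⟩ := pair_mem_RD.1 hq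
    exact ⟨h1, φ, l, h2, h3⟩
  · rintro ⟨h1, φ, l, h2, h3⟩
    exact ⟨_, pair_mem_RD.2 ⟨h1, φ, l, rfl, h2, h3⟩⟩

theorem svl_RD (N Y : V) : Svl (RD N Y) := by
  intro q z z' h h'
  obtain ⟨h1, φ, l, rfl, h2, h3⟩ := pair_mem_RD.1 h
  obtain ⟨h1', φ', l', he, h2', h3'⟩ := pair_mem_RD.1 h'
  obtain ⟨ha, hb⟩ := ZFSet.pair_inj.1 he
  have hφ := cd_inj ha
  have hl := lc_inj hb
  subst hφ
  subst hl
  exact (h3' z h1).1 ((h3 z h1).2 rfl)

theorem sm_dcl (k : ZFm M) (hC : M C) (hg : Gd C) {N Y : V} (hN : M N) (hY : M Y)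
    (h : Sm M C Y) : Sm M C (Dcl N Y) := by
  rw [← rg_RD]
  have hv : In M (cons N (cons Y fun _ => C)) := ((in1 hC).cons hY).cons hN
  have hR : M (RD N Y) := tm_RD.1 M k _ hv
  have hdm : M (dm (RD N Y)) := (Tm.dm (Tm.var 0)).1 M k (fun _ => RD N Y) fun _ => hR
  have hYN : M (Y ∩ N) := (Tm.inter (Tm.var 1) (Tm.var 0)).1 M k _ hv
  have hCD : M CD := Tm.CD.1 M k _ hv
  have h1 : Sm M C (ZFSet.prod CD (Lw (Y ∩ N))) := by
    refine sm_prod k hC hg (sm_sub_self k hC hCD ?_) (sm_Lw k hC hg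
      (sm_sub k hC hYN h fun p hp => (ZFSet.mem_inter.1 hp).1))
    intro c hc
    obtain ⟨φ, rfl⟩ := mem_CD.1 hc
    exact cd_mem hg φ
  refine sm_image k hC (sm_sub k hC hdm h1 ?_) hR (svl_RD N Y) rfl
  intro q hq
  obtain ⟨z, hz⟩ := mem_dm.1 hq
  unfold RD at hz
  rw [ZFSet.mem_sep, ZFSet.pair_mem_prod] at hz
  exact hz.1.1

theorem sm_up (k : ZFm M) (hC : M C) {C' : V} (hC' : M C') (hCC : C ⊆ C') (hx : Sm M C x) :
    Sm M C' x := by
  rcases sm_cases k hx with h | ⟨f, x₀, hf, hof, hx₀, hMx₀⟩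
  · exact Or.inl h
  refine sm_fun k (G := fun _ u => sel (u 0 ∈ u 2) (app (u 3) (u 0)) (u 4))
    (Tm.sel (Dfb.mem (Tm.var 0) (Tm.var 2)) (Tm.app (Tm.var 3) (Tm.var 0)) (Tm.var 4))
    (cons C' (cons C (cons f (cons x₀ fun _ => C))))
    (((((in1 hC).cons hMx₀).cons hf).cons hC).cons hC') rfl ?_ ?_
  · intro c hc
    show sel (c ∈ C) (app f c) x₀ ∈ x
    by_cases h : c ∈ C
    · rw [sel_pos h]; exact app_mem hof.1 h
    · rwa [sel_neg h]
  · intro b hb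
    obtain ⟨c, hc, hcb⟩ := onto_app hof hb
    refine ⟨c, hCC hc, ?_⟩
    show sel (c ∈ C) (app f c) x₀ = b
    rw [sel_pos hc, hcb]

theorem dfb_sm : Dfb ZFm (fun M v => Sm M (v 0) (v 1)) := by
  have h1 : Dfb ZFm (fun M v => ∃ f, M f ∧ Onto f (v 0) (v 1)) :=
    (Dfb.ex (R := fun _ v => Onto (v 0) (v 1) (v 2))
      (Dfb.onto (Tm.var 0) (Tm.var 1) (Tm.var 2))).congr fun M k v hv => Iff.rfl
  exact ((Dfb.eq (Tm.var 1) Tm.empty).or h1).congr fun M k v hv => Iff.rfl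

end DF

open DF

theorem pf_DF : T_DF := by
  intro M k C hC hg
  refine ⟨fun x hx => ?_, fun x hx h => sm_sub_self k hC hx h, fun x y hx hy h =>
    sm_sub k hC hx hy h, fun x y hx hy => sm_prod k hC hg hx hy, fun x y hx hy =>
    sm_union k hC hg hx hy, fun x hx => sm_Lw k hC hg hx, fun x f hx hf hs hd =>
    sm_image k hC hx hf hs hd, fun N Y hN hY h => sm_dcl k hC hg hN hY h,
    fun C' hC' h x hx => sm_up k hC hC' h hx, dfb_sm⟩
  exact sm_sub_self k hC (k.trans _ hC _ hx) (hg.tr x hx)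

end CAA
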