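import Pool.Agent.H37.CA.Targets

/-!
# MUL: multiplicities of linear characters of an abelian normal subgroup
-/

set_option autoImplicit false

namespace Pool.Agent.H3.CA

open Pool.Agent.H37.CA

/-- the twist of the restriction of `ρ` to `A` -/
noncomputable def tw {G V : Type} [Group G] [AddCommGroup V] [Module ℂ V]
    (ρ : Representation ℂ G V) (A : Subgroup G) (φ : A →* ℂˣ) : Representation ℂ A V where
  toFun := fun a => ((φ a⁻¹ : ℂˣ) : ℂ) • ρ (a : G)
  map_one' := by simp
  map_mul' := by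
    intro a b
    have e : φ (a * b)⁻¹ = φ a⁻¹ * φ b⁻¹ := by
      rw [mul_inv_rev, map_mul, mul_comm]
    rw [e, Units.val_mul, Subgroup.coe_mul, map_mul, smul_mul_smul_comm]

theorem tw_char {G V : Type} [Group G] [AddCommGroup V] [Module ℂ V] [FiniteDimensional ℂ V]
    (ρ : Representation ℂ G V) (A : Subgroup G) (φ : A →* ℂˣ) (a : A) :
    (tw ρ A φ).character a = ρ.character (a : G) * ((φ a⁻¹ : ℂˣ) : ℂ) := by
  show LinearMap.trace ℂ V (((φ a⁻¹ : ℂˣ) : ℂ) • ρ (a : G)) = _
  rw [map_smul, smul_eq_mul, mul_comm]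
  rfl

/-- MUL -/
theorem pf_MUL : T_MUL := by
  intro G _ _ A hA hcomm f hf
  obtain ⟨V, _, _, _, ρ, hirr, rfl⟩ := hf
  have hAF : Fintype A := Fintype.ofFinite A
  have hcard : (Nat.card A : ℂ) ≠ 0 := by exact_mod_cast Nat.card_pos.ne'
  have hml : ∀ φ : A →* ℂˣ, mlt A φ ρ.character =
      (Nat.card A : ℂ)⁻¹ * ∑ a : A, ρ.character (a : G) * ((φ a⁻¹ : ℂˣ) : ℂ) := by
    intro φ
    unfold mlt
    rw [finsum_eq_sum_of_fintype]
  refine ⟨?_, ?_, ?_⟩
  · intro φ
    have : Invertible (Nat.card A : ℂ) := invertibleOfNonzero hcard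
    have h1 := Representation.card_inv_mul_sum_char_eq_finrank (tw ρ A φ)
    refine ⟨Module.finrank ℂ (tw ρ A φ).invariants, ?_⟩
    rw [hml, ← h1]
    congr 1
    exact Finset.sum_congr rfl fun a _ => (tw_char ρ A φ a).symm
  · by_contra hno
    push Not at hno
    let cA : CommGroup A := { (inferInstance : Group A) with
      mul_comm := fun a b => Subtype.ext (hcomm a a.2 b b.2) }
    have hfin : Finite (A →* ℂˣ) := by
      have h1 : Nat.card (A →* ℂˣ) = Nat.card A :=
        CommGroup.card_monoidHom_of_hasEnoughRootsOfUnity A ℂ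
      have h4 : 0 < Nat.card (A →* ℂˣ) := by rw [h1]; exact Nat.card_pos
      exact (Nat.card_pos_iff.1 h4).2
    have hFt : Fintype (A →* ℂˣ) := Fintype.ofFinite _
    have h0 : ∑ φ : A →* ℂˣ, mlt A φ ρ.character = 0 :=
      Finset.sum_eq_zero fun φ _ => hno φ
    have h1 : ∀ a : A, a ≠ 1 → ∑ φ : A →* ℂˣ, ((φ a⁻¹ : ℂˣ) : ℂ) = 0 := by
      intro a ha
      let E : (A →* ℂˣ) →* ℂ :=
        { toFun := fun φ => ((φ a⁻¹ : ℂˣ) : ℂ)
          map_one' := by simp
          map_mul' := fun φ ψ => by simp }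
      refine sum_hom_units_eq_zero E ?_
      intro hE
      have ha' : a⁻¹ ≠ 1 := inv_ne_one.2 ha
      obtain ⟨φ, hφ⟩ : ∃ φ : A →* ℂˣ, φ a⁻¹ ≠ 1 :=
        CommGroup.exists_apply_ne_one_of_hasEnoughRootsOfUnity A ℂ ha'
      apply hφ
      have h2 := DFunLike.congr_fun hE φ
      exact Units.ext h2
    have h2 : ∑ φ : A →* ℂˣ, mlt A φ ρ.character =
        (Nat.card A : ℂ)⁻¹ * (ρ.character 1 * (Nat.card (A →* ℂˣ) : ℂ)) := by
      calc ∑ φ : A →* ℂˣ, mlt A φ ρ.character
          = ∑ φ : A →* ℂˣ, (Nat.card A : ℂ)⁻¹ *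
              ∑ a : A, ρ.character (a : G) * ((φ a⁻¹ : ℂˣ) : ℂ) :=
            Finset.sum_congr rfl fun φ _ => hml φ
        _ = (Nat.card A : ℂ)⁻¹ * ∑ a : A, ρ.character (a : G) *
              ∑ φ : A →* ℂˣ, ((φ a⁻¹ : ℂˣ) : ℂ) := by
            rw [← Finset.mul_sum, Finset.sum_comm]
            congr 1
            exact Finset.sum_congr rfl fun a _ => (Finset.mul_sum _ _ _).symm
        _ = _ := by
            congr 1
            rw [Finset.sum_eq_single (1 : A) (fun a _ ha => by rw [h1 a ha, mul_zero])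
              (fun h => absurd (Finset.mem_univ _) h)]
            congr 1
            simp [Nat.card_eq_fintype_card]
    rw [h0] at h2
    have h3 : ρ.character 1 = (Module.finrank ℂ V : ℂ) := ρ.char_one
    have hnt : Nontrivial V := by
      have h6 := (Representation.irreducible_iff_isSimpleModule_asModule ρ).1 hirr
      exact IsSimpleModule.nontrivial (MonoidAlgebra ℂ G) ρ.asModule
    have h4 : (Module.finrank ℂ V : ℂ) ≠ 0 := by
      exact_mod_cast (Module.finrank_pos (R := ℂ) (M := V)).ne'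
    have h5 : (Nat.card (A →* ℂˣ) : ℂ) ≠ 0 := by exact_mod_cast Nat.card_pos.ne'
    rw [h3] at h2
    exact (mul_ne_zero (inv_ne_zero hcard) (mul_ne_zero h4 h5)) h2.symm
  · intro φ φ' g hφ
    rw [hml, hml]
    congr 1
    have hmem : ∀ a : A, g⁻¹ * a * g ∈ A := by
      intro a
      have := hA.conj_mem (a : G) a.2 g⁻¹
      simpa using this
    let e : A ≃ A :=
      { toFun := fun a => ⟨g⁻¹ * a * g, hmem a⟩
        invFun := fun a => ⟨g * a * g⁻¹, hA.conj_mem (a : G) a.2 g⟩
        left_inv := fun a => Subtype.ext (by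
          show g * (g⁻¹ * (a : G) * g) * g⁻¹ = a
          group)
        right_inv := fun a => Subtype.ext (by
          show g⁻¹ * (g * (a : G) * g⁻¹) * g = a
          group) }
    refine Fintype.sum_equiv e _ _ fun a => ?_
    have h1 : ρ.character ((e a : A) : G) = ρ.character (a : G) := by
      show ρ.character (g⁻¹ * (a : G) * g) = ρ.character (a : G)
      have := ρ.char_conj (a : G) g⁻¹
      rwa [inv_inv] at this
    have h2 : φ' a⁻¹ = φ (e a)⁻¹ := by
      rw [hφ a⁻¹ (hmem a⁻¹)]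
      congr 1
      refine Subtype.ext ?_
      show g⁻¹ * (a : G)⁻¹ * g = (g⁻¹ * (a : G) * g)⁻¹
      group
    rw [h1, h2]

end Pool.Agent.H3.CA
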