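import Pool.Agent.H9.CA.TarG
import Pool.Agent.H14.SF.LHE
import Pool.Agent.H68.SF.LDX

/-!
# Part G, (GE): the stationary sets as a set
-/

set_option linter.unusedVariables false

open Ordinal Order Set
open scoped ZFSet

namespace CAA

open SF

namespace GEx

variable {f g h : (V → Prop) → (ℕ → V) → V}

/-- `NS` for sets -/
def NSs (g d r : V) : Prop := ∀ f ∈ LAS ∅ r, ¬ Onto f (LAS ∅ g) d

/-- `r` is the height of a model without a surjection -/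
def Ht (g d r : V) : Prop := d ∈ r ∧ ZFm (· ∈ LAS ∅ r) ∧ NSs g d r

/-- `InE` for sets -/
def IEs (K g d : V) : Prop :=
  g ∈ d ∧ (∃ f ∈ LAS ∅ K, ZFSet.IsFunc om d f ∧ ∀ ξ ∈ d, ∃ n ∈ om, ξ ∈ app f n) ∧
  (∃ r ∈ K, Ht g d r) ∧ ∀ r ∈ K, Ht g d r → ∃ r' ∈ K, r ∈ r' ∧ Ht g d r'

theorem dfb_NSs (hf : Tm ZFm f) (hg : Tm ZFm g) (hh : Tm ZFm h) :
    Dfb ZFm (fun M v => NSs (f M v) (g M v) (h M v)) :=
  Dfb.at3 (P := fun _ x y z => NSs x y z)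
    ((Dfb.ball (R := fun _ v => ¬ Onto (v 0) (LAS ∅ (v 1)) (v 2)) ktr_zfm
      (Tm.LAS Tm.empty (Tm.var 2)) (Dfb.onto (Tm.var 0) (Tm.LAS Tm.empty (Tm.var 1))
        (Tm.var 2)).not).congr fun M k v hv => Iff.rfl) hf hg hh

theorem dfb_Ht (hf : Tm ZFm f) (hg : Tm ZFm g) (hh : Tm ZFm h) :
    Dfb ZFm (fun M v => Ht (f M v) (g M v) (h M v)) :=
  (Dfb.mem hg hh).and ((Dfb.zfm (Tm.LAS Tm.empty hh)).and (dfb_NSs hf hg hh))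

theorem dfb_IEs (hf : Tm ZFm f) (hg : Tm ZFm g) (hh : Tm ZFm h) :
    Dfb ZFm (fun M v => IEs (f M v) (g M v) (h M v)) := by
  refine Dfb.at3 (P := fun _ x y z => IEs x y z) ?_ hf hg hh
  refine (Dfb.mem (Tm.var 1) (Tm.var 2)).and (Dfb.and ?_ (Dfb.and ?_ ?_))
  · refine (Dfb.bex (R := fun _ v => ZFSet.IsFunc om (v 3) (v 0) ∧
      ∀ ξ ∈ v 3, ∃ n ∈ om, ξ ∈ app (v 0) n) ktr_zfm (Tm.LAS Tm.empty (Tm.var 0)) ?_).congr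
      fun M k v hv => Iff.rfl
    refine (Dfb.isFunc Tm.om (Tm.var 3) (Tm.var 0)).and ?_
    refine (Dfb.ball (R := fun _ v => ∃ n ∈ om, v 0 ∈ app (v 1) n) ktr_zfm (Tm.var 3) ?_).congr
      fun M k v hv => Iff.rfl
    exact (Dfb.bex (R := fun _ v => v 1 ∈ app (v 2) (v 0)) ktr_zfm Tm.om
      (Dfb.mem (Tm.var 1) (Tm.app (Tm.var 2) (Tm.var 0)))).congr fun M k v hv => Iff.rfl
  · exact (Dfb.bex (R := fun _ v => Ht (v 2) (v 3) (v 0)) ktr_zfm (Tm.var 0)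
      (dfb_Ht (Tm.var 2) (Tm.var 3) (Tm.var 0))).congr fun M k v hv => Iff.rfl
  · refine (Dfb.ball (R := fun _ v => Ht (v 2) (v 3) (v 0) → ∃ r' ∈ v 1, v 0 ∈ r' ∧
      Ht (v 2) (v 3) r') ktr_zfm (Tm.var 0) ?_).congr fun M k v hv => Iff.rfl
    refine (dfb_Ht (Tm.var 2) (Tm.var 3) (Tm.var 0)).imp ?_
    exact (Dfb.bex (R := fun _ v => v 1 ∈ v 0 ∧ Ht (v 3) (v 4) (v 0)) ktr_zfm (Tm.var 1)
      ((Dfb.mem (Tm.var 1) (Tm.var 0)).and (dfb_Ht (Tm.var 3) (Tm.var 4) (Tm.var 0)))).congr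
      fun M k v hv => Iff.rfl

theorem NSs_ord (γ δ ρ : Ordinal.{0}) : NSs γ.toZFSet δ.toZFSet ρ.toZFSet ↔ NS γ δ ρ := by
  unfold NSs NS
  rw [LAS_ord, LAS_ord]

theorem Ht_ord (γ δ ρ : Ordinal.{0}) : Ht γ.toZFSet δ.toZFSet ρ.toZFSet ↔
    δ < ρ ∧ ZFm (· ∈ LA ∅ ρ) ∧ NS γ δ ρ := by
  unfold Ht
  rw [LAS_ord, NSs_ord, Ordinal.toZFSet_mem_toZFSet_iff]

theorem IEs_ord (κ γ δ : Ordinal.{0}) : IEs κ.toZFSet γ.toZFSet δ.toZFSet ↔ InE κ γ δ := by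
  unfold IEs
  rw [LAS_ord, Ordinal.toZFSet_mem_toZFSet_iff]
  constructor
  · rintro ⟨h1, ⟨f, hf, hf1, hf2⟩, ⟨r, hr, hr1⟩, h4⟩
    refine ⟨h1, ⟨f, hf, hf1, fun ξ hξ => ?_⟩, ?_, ?_⟩
    · obtain ⟨n, hn, hn'⟩ := hf2 _ (Ordinal.toZFSet_mem_toZFSet_iff.2 hξ)
      obtain ⟨m, rfl⟩ := mem_om.1 hn
      exact ⟨m, hn'⟩
    · obtain ⟨ρ, hρ, rfl⟩ := Ordinal.mem_toZFSet_iff.1 hr
      obtain ⟨h5, h6, h7⟩ := (Ht_ord _ _ _).1 hr1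
      exact ⟨ρ, h5, hρ, h6, h7⟩
    · intro ρ h5 h6 h7 h8
      obtain ⟨r', hr', h9, h10⟩ := h4 _ (Ordinal.toZFSet_mem_toZFSet_iff.2 h6)
        ((Ht_ord _ _ _).2 ⟨h5, h7, h8⟩)
      obtain ⟨ρ', hρ', rfl⟩ := Ordinal.mem_toZFSet_iff.1 hr'
      obtain ⟨h11, h12, h13⟩ := (Ht_ord _ _ _).1 h10
      exact ⟨ρ', Ordinal.toZFSet_mem_toZFSet_iff.1 h9, hρ', h12, h13⟩
  · rintro ⟨h1, ⟨f, hf, hf1, hf2⟩, ⟨ρ, h5, h6, h7, h8⟩, h4⟩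
    refine ⟨h1, ⟨f, hf, hf1, fun x hx => ?_⟩, ⟨_, Ordinal.toZFSet_mem_toZFSet_iff.2 h6,
      (Ht_ord _ _ _).2 ⟨h5, h7, h8⟩⟩, fun r hr hr1 => ?_⟩
    · obtain ⟨ξ, hξ, rfl⟩ := Ordinal.mem_toZFSet_iff.1 hx
      obtain ⟨n, hn⟩ := hf2 ξ hξ
      exact ⟨_, nS_mem_om n, hn⟩
    · obtain ⟨ρ₁, hρ₁, rfl⟩ := Ordinal.mem_toZFSet_iff.1 hr
      obtain ⟨h9, h10, h11⟩ := (Ht_ord _ _ _).1 hr1
      obtain ⟨ρ', h12, h13, h14, h15⟩ := h4 ρ₁ h9 hρ₁ h10 h11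
      exact ⟨_, Ordinal.toZFSet_mem_toZFSet_iff.2 h13, Ordinal.toZFSet_mem_toZFSet_iff.2 h12,
        (Ht_ord _ _ _).2 ⟨h9.trans h12, h14, h15⟩⟩

/-- height -/
theorem ht {γ : Ordinal.{0}} (h : ZFm (· ∈ LA ∅ γ)) :
    IsSuccLimit γ ∧ ∀ α : Ordinal.{0}, α.toZFSet ∈ LA ∅ γ ↔ α < γ :=
  pf_LHE pf_LHT ∅ ∅ γ ZFSet.isTransitive_empty h h.mempty h.mempty

end GEx

open GEx

theorem pf_GE : T_GE := by
  intro κ χ θ γ μ ga mu hG hS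
  have k : ZFm (· ∈ LA ∅ θ) := hG.zfc.toZFm
  have kκ := hG.zκ
  have kχ := hG.zχ
  have hκ := (ht kκ).2
  have hχ := (ht kχ).2
  -- levels
  have hKθ : κ.toZFSet ∈ LA ∅ θ := (hG.ord κ).2 (hG.κχ.trans hG.χθ)
  have hKχ : κ.toZFSet ∈ LA ∅ χ := (hχ κ).2 hG.κχ
  have hLκχ : LA ∅ κ ∈ LA ∅ χ := by
    have h1 := (Tm.LAS Tm.empty (Tm.var 0)).1 (· ∈ LA ∅ χ) kχ (fun _ => κ.toZFSet) fun _ => hKχ
    simp only [LAS_ord] at h1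
    exact h1
  have hχθ : ∀ x ∈ LA ∅ χ, x ∈ LA ∅ θ := fun x hx => Lh_mono hG.χθ.le hx
  -- the function
  have hTm : Tm ZFm (fun _ u => (app (u 3) (u 0)).sep fun d => IEs (u 1) (app (u 2) (u 0)) d) :=
    (Tm.sep (R := fun _ u => IEs (u 2) (app (u 3) (u 1)) (u 0)) (dfb_IEs (Tm.var 2)
      (Tm.app (Tm.var 3) (Tm.var 1)) (Tm.var 0)) (Tm.app (Tm.var 3) (Tm.var 0))).congr
      fun M k v hv => rfl
  have hv : In (· ∈ LA ∅ θ) (cons κ.toZFSet (cons ga (cons mu fun _ => κ.toZFSet))) :=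
    ((In.cons (fun _ => hKθ) (hχθ _ hS.muM)).cons (hχθ _ hS.gaM)).cons hKθ
  have hE := (Tm.resS (Tm.var 0) hTm).1 (· ∈ LA ∅ θ) k _ hv
  set F : V → V := fun x => (app mu x).sep fun d => IEs κ.toZFSet (app ga x) d with hF
  have hE' : resS κ.toZFSet F ∈ LA ∅ θ := hE
  have hFθ : ∀ i < κ, F i.toZFSet ∈ LA ∅ θ := by
    intro i hi
    have h1 := hTm.1 (· ∈ LA ∅ θ) k _ (hv.cons ((hG.ord i).2 (hi.trans (hG.κχ.trans hG.χθ))))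
    exact h1
  have hFκ : ∀ i < κ, F i.toZFSet ∈ LA ∅ κ := by
    intro i hi
    refine hG.subκ (μ i).toZFSet ((hκ _).2 (hS.μκ i hi)) _ (hFθ i hi) ?_
    intro x hx
    have h1 := (ZFSet.mem_sep.1 hx).1
    rwa [hS.muA i hi] at h1
  refine ⟨resS κ.toZFSet F, hG.subχ _ hLκχ _ hE' ?_, fun i hi x => ?_⟩
  · intro z hz
    obtain ⟨x, hx, rfl⟩ := mem_resS.1 hz
    obtain ⟨i, hi, rfl⟩ := Ordinal.mem_toZFSet_iff.1 hx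
    exact kκ.mpair ((hκ i).2 hi) (hFκ i hi)
  · rw [app_resS (Ordinal.toZFSet_mem_toZFSet_iff.2 hi)]
    simp only [hF]
    rw [ZFSet.mem_sep, hS.muA i hi, hS.gaA i hi]
    constructor
    · rintro ⟨h1, h2⟩
      obtain ⟨δ, hδ, rfl⟩ := Ordinal.mem_toZFSet_iff.1 h1
      exact ⟨δ, hδ, rfl, (IEs_ord _ _ _).1 h2⟩
    · rintro ⟨δ, hδ, rfl, h2⟩
      exact ⟨Ordinal.toZFSet_mem_toZFSet_iff.2 hδ, (IEs_ord _ _ _).2 h2⟩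

end CAA
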