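import Pool.Agent.H3.CA.GE
import Pool.Agent.H84.SF.LAR
import Pool.Agent.H11.CA.DA

/-!
# Part G, (GF): bookkeeping

Every ordinal has at most one representation `i = z z + y` with `y < z`; the functions `i ↦ z` and
`i ↦ y` are definable. With these functions ordinals `i < κ` code pairs of ordinals `< κ`, and every
pair has arbitrarily large codes. -/

set_option linter.unusedVariables false

open Ordinal Order Set
open scoped ZFSet

namespace CAA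

open SF

namespace GFx

variable {f g h : (V → Prop) → (ℕ → V) → V}

theorem uniq {z y z' y' : Ordinal.{0}} (hy : y < z) (hy' : y' < z')
    (h : z * z + y = z' * z' + y') : z = z' ∧ y = y' := by
  have key : ∀ {z y z' y' : Ordinal.{0}}, y < z → z < z' → z * z + y < z' * z' + y' := by
    intro z y z' y' hy hz
    calc z * z + y < z * z + z := (add_lt_add_iff_left _).2 hy
      _ = z * succ z := (Ordinal.mul_succ z z).symm
      _ ≤ z' * z' := mul_le_mul' hz.le (succ_le_of_lt hz)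
      _ ≤ z' * z' + y' := le_add_of_nonneg_right (zero_le)
  rcases lt_trichotomy z z' with h1 | h1 | h1
  · exact absurd h (key hy h1).ne
  · subst h1
    exact ⟨rfl, add_left_cancel h⟩
  · exact absurd h (key hy' h1).ne'

/-- `i = z z + y` -/
def Rp (i z y : V) : Prop := y ∈ z ∧ i = (z.rank * z.rank + y.rank).toZFSet

/-- the first component -/
noncomputable def Zc (i : V) : V := (⋃₀ ((insert i i).sep fun z => ∃ y ∈ z, Rp i z y) : ZFSet)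

/-- the second component -/
noncomputable def Dc (i : V) : V :=
  (⋃₀ ((insert i i).sep fun y => ∃ z ∈ (insert i i : V), Rp i z y) : ZFSet)

theorem tm_add (hf : Tm ZFm f) (hg : Tm ZFm g) :
    Tm ZFm (fun M v => ((f M v).rank + (g M v).rank).toZFSet) :=
  Tm.at2 (F := fun _ x y => (x.rank + y.rank).toZFSet) (pf_LAR pf_RKT).1 hf hg

theorem tm_mul (hf : Tm ZFm f) (hg : Tm ZFm g) :
    Tm ZFm (fun M v => ((f M v).rank * (g M v).rank).toZFSet) :=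
  Tm.at2 (F := fun _ x y => (x.rank * y.rank).toZFSet) (pf_LAR pf_RKT).2 hf hg

theorem dfb_Rp (hf : Tm ZFm f) (hg : Tm ZFm g) (hh : Tm ZFm h) :
    Dfb ZFm (fun M v => Rp (f M v) (g M v) (h M v)) := by
  refine (Dfb.mem hh hg).and (Dfb.eq hf ?_)
  exact (tm_add (tm_mul hg hg) hh).congr fun M k v hv => by simp only [Ordinal.rank_toZFSet]

theorem tm_Zc (hf : Tm ZFm f) : Tm ZFm (fun M v => Zc (f M v)) := by
  refine Tm.at1 (F := fun _ x => Zc x) ?_ hf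
  refine (Tm.sUnion (Tm.sep (R := fun _ v => ∃ y ∈ v 0, Rp (v 1) (v 0) y) ?_
    (Tm.ins (Tm.var 0) (Tm.var 0)))).congr fun M k v hv => rfl
  exact (Dfb.bex (R := fun _ v => Rp (v 2) (v 1) (v 0)) ktr_zfm (Tm.var 0)
    (dfb_Rp (Tm.var 2) (Tm.var 1) (Tm.var 0))).congr fun M k v hv => Iff.rfl

theorem tm_Dc (hf : Tm ZFm f) : Tm ZFm (fun M v => Dc (f M v)) := by
  refine Tm.at1 (F := fun _ x => Dc x) ?_ hf
  refine (Tm.sUnion (Tm.sep (R := fun _ v => ∃ z ∈ (insert (v 1) (v 1) : V), Rp (v 1) z (v 0)) ?_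
    (Tm.ins (Tm.var 0) (Tm.var 0)))).congr fun M k v hv => rfl
  exact (Dfb.bex (R := fun _ v => Rp (v 2) (v 0) (v 1)) ktr_zfm (Tm.ins (Tm.var 1) (Tm.var 1))
    (dfb_Rp (Tm.var 2) (Tm.var 0) (Tm.var 1))).congr fun M k v hv => Iff.rfl

theorem mem_ins {i : Ordinal.{0}} {x : V} : x ∈ (insert i.toZFSet i.toZFSet : V) ↔
    ∃ j ≤ i, x = j.toZFSet := by
  rw [ZFSet.mem_insert_iff]
  constructor
  · rintro (rfl | h)
    · exact ⟨i, le_rfl, rfl⟩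
    · obtain ⟨j, hj, rfl⟩ := Ordinal.mem_toZFSet_iff.1 h
      exact ⟨j, hj.le, rfl⟩
  · rintro ⟨j, hj, rfl⟩
    rcases hj.eq_or_lt with rfl | hj
    · exact Or.inl rfl
    · exact Or.inr (Ordinal.toZFSet_mem_toZFSet_iff.2 hj)

theorem Rp_ord {i z y : Ordinal.{0}} : Rp i.toZFSet z.toZFSet y.toZFSet ↔
    y < z ∧ i = z * z + y := by
  unfold Rp
  rw [Ordinal.toZFSet_mem_toZFSet_iff, Ordinal.rank_toZFSet, Ordinal.rank_toZFSet]
  refine and_congr_right fun _ => ⟨fun h => ?_, fun h => by rw [h]⟩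
  have := congrArg ZFSet.rank h
  rwa [Ordinal.rank_toZFSet, Ordinal.rank_toZFSet] at this

theorem le_of_rp {z y : Ordinal.{0}} (hy : y < z) : z ≤ z * z + y ∧ y ≤ z * z + y := by
  have hz : 0 < z := lt_of_le_of_lt (zero_le) hy
  exact ⟨(Ordinal.le_mul_left z hz).trans (le_add_of_nonneg_right (zero_le)),
    le_add_of_nonneg_left (zero_le)⟩

theorem Zc_eq {z y : Ordinal.{0}} (hy : y < z) : Zc (z * z + y).toZFSet = z.toZFSet := by
  have e : ((insert (z * z + y).toZFSet (z * z + y).toZFSet : V).sep fun w =>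
      ∃ u ∈ w, Rp (z * z + y).toZFSet w u) = {z.toZFSet} := by
    ext x
    rw [ZFSet.mem_sep, ZFSet.mem_singleton, mem_ins]
    constructor
    · rintro ⟨⟨j, -, rfl⟩, u, hu, h1⟩
      obtain ⟨w, hw, rfl⟩ := Ordinal.mem_toZFSet_iff.1 hu
      obtain ⟨h2, h3⟩ := Rp_ord.1 h1
      rw [(uniq hy h2 h3).1]
    · rintro rfl
      exact ⟨⟨z, (le_of_rp hy).1, rfl⟩, y.toZFSet, Ordinal.toZFSet_mem_toZFSet_iff.2 hy,
        Rp_ord.2 ⟨hy, rfl⟩⟩
  unfold Zc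
  rw [e, ZFSet.sUnion_singleton]

theorem Dc_eq {z y : Ordinal.{0}} (hy : y < z) : Dc (z * z + y).toZFSet = y.toZFSet := by
  have e : ((insert (z * z + y).toZFSet (z * z + y).toZFSet : V).sep fun u =>
      ∃ w ∈ (insert (z * z + y).toZFSet (z * z + y).toZFSet : V), Rp (z * z + y).toZFSet w u) =
      {y.toZFSet} := by
    ext x
    rw [ZFSet.mem_sep, ZFSet.mem_singleton, mem_ins]
    constructor
    · rintro ⟨⟨j, -, rfl⟩, w, hw, h1⟩
      obtain ⟨z', -, rfl⟩ := mem_ins.1 hw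
      obtain ⟨h2, h3⟩ := Rp_ord.1 h1
      rw [(uniq hy h2 h3).2]
    · rintro rfl
      exact ⟨⟨y, (le_of_rp hy).2, rfl⟩, z.toZFSet, mem_ins.2 ⟨z, (le_of_rp hy).1, rfl⟩,
        Rp_ord.2 ⟨hy, rfl⟩⟩
  unfold Dc
  rw [e, ZFSet.sUnion_singleton]

/-- both are ordinals `≤ i` -/
theorem Zc_le (i : Ordinal.{0}) : ∃ j ≤ i, Zc i.toZFSet = j.toZFSet := by
  by_cases h : ∃ z y : Ordinal.{0}, y < z ∧ i = z * z + y
  · obtain ⟨z, y, hy, rfl⟩ := h
    exact ⟨z, (le_of_rp hy).1, Zc_eq hy⟩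
  · refine ⟨0, zero_le, ?_⟩
    have e : ((insert i.toZFSet i.toZFSet : V).sep fun w => ∃ u ∈ w, Rp i.toZFSet w u) = ∅ := by
      rw [ZFSet.eq_empty]
      intro x hx
      obtain ⟨h1, u, hu, h2⟩ := ZFSet.mem_sep.1 hx
      obtain ⟨z, -, rfl⟩ := mem_ins.1 h1
      obtain ⟨y, -, rfl⟩ := Ordinal.mem_toZFSet_iff.1 hu
      exact h ⟨z, y, Rp_ord.1 h2⟩
    unfold Zc
    rw [e]
    simp

theorem Dc_le (i : Ordinal.{0}) : ∃ j ≤ i, Dc i.toZFSet = j.toZFSet := by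
  by_cases h : ∃ z y : Ordinal.{0}, y < z ∧ i = z * z + y
  · obtain ⟨z, y, hy, rfl⟩ := h
    exact ⟨y, (le_of_rp hy).2, Dc_eq hy⟩
  · refine ⟨0, zero_le, ?_⟩
    have e : ((insert i.toZFSet i.toZFSet : V).sep fun u =>
        ∃ w ∈ (insert i.toZFSet i.toZFSet : V), Rp i.toZFSet w u) = ∅ := by
      rw [ZFSet.eq_empty]
      intro x hx
      obtain ⟨h1, w, hw, h2⟩ := ZFSet.mem_sep.1 hx
      obtain ⟨y, -, rfl⟩ := mem_ins.1 h1
      obtain ⟨z, -, rfl⟩ := mem_ins.1 hw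
      exact h ⟨z, y, Rp_ord.1 h2⟩
    unfold Dc
    rw [e]
    simp

/-- codes of pairs -/
theorem code {κ : Ordinal.{0}} (hκ : ∀ x < κ, ∀ y < κ, x * x + y < κ) (hl : IsSuccLimit κ)
    {l x y : Ordinal.{0}} (hlκ : l < κ) (hx : x < κ) (hy : y < κ) :
    ∃ i, l ≤ i ∧ i < κ ∧ Dc (Zc i.toZFSet) = x.toZFSet ∧ Dc i.toZFSet = y.toZFSet := by
  set w := succ (max l (max x y)) with hw
  have h1 : max l (max x y) < κ := max_lt hlκ (max_lt hx hy)
  have hwκ : w < κ := hl.succ_lt h1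
  have hlw : l < w := lt_of_le_of_lt (le_max_left _ _) (lt_succ _)
  have hxw : x < w := lt_of_le_of_lt ((le_max_left _ _).trans (le_max_right _ _)) (lt_succ _)
  have hyw : y < w := lt_of_le_of_lt ((le_max_right _ _).trans (le_max_right _ _)) (lt_succ _)
  have hz : w ≤ w * w + x := (le_of_rp hxw).1
  have hyz : y < w * w + x := lt_of_lt_of_le hyw hz
  refine ⟨(w * w + x) * (w * w + x) + y, ?_, hκ _ (hκ _ hwκ _ hx) _ hy, ?_, ?_⟩
  · exact (hlw.le.trans hz).trans (le_of_rp hyz).1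
  · rw [Zc_eq hyz, Dc_eq hxw]
  · rw [Dc_eq hyz]

end GFx

open GEx GFx

theorem pf_GF : T_GF := by
  intro κ χ θ hG
  obtain ⟨ix, hT, hix⟩ := pf_DA
  have k : ZFm (· ∈ LA ∅ θ) := hG.zfc.toZFm
  have kκ := hG.zκ
  have kχ := hG.zχ
  have hκ := (ht kκ).2
  have hχ := (ht kχ).2
  have hl := (ht kκ).1
  have hKχ : κ.toZFSet ∈ LA ∅ χ := (hχ κ).2 hG.κχ
  have h0κ : (∅ : V) ∈ LA ∅ κ := kκ.mempty
  have hcl : ∀ x < κ, ∀ y < κ, x * x + y < κ := by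
    intro x hx y hy
    have h1 := (tm_add (tm_mul (Tm.var 0) (Tm.var 0)) (Tm.var 1)).1 (· ∈ LA ∅ κ) kκ
      (cons x.toZFSet fun _ => y.toZFSet)
      (In.cons (fun _ => (hκ y).2 hy) ((hκ x).2 hx))
    simp only [cons_zero, cons_succ, Ordinal.rank_toZFSet] at h1
    exact (hκ _).1 h1
  -- the function
  have hTi : ∀ f g : (V → Prop) → (ℕ → V) → V, Tm ZFm f → Tm ZFm g →
      Tm ZFm (fun M v => ix (f M v) (g M v)) := fun f g hf hg =>
    Tm.at2 (F := fun _ x y => ix x y) hT hf hg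
  have hTm : Tm ZFm (fun _ u => ZFSet.pair (Dc (Zc (u 0)))
      (ix ∅ (ZFSet.pair (Dc (Zc (Dc (u 0)))) (Dc (Dc (u 0)))))) :=
    Tm.pair (tm_Dc (tm_Zc (Tm.var 0))) (hTi _ _ Tm.empty
      (Tm.pair (tm_Dc (tm_Zc (tm_Dc (Tm.var 0)))) (tm_Dc (tm_Dc (Tm.var 0)))))
  have hE := (Tm.resS (Tm.var 0) hTm).1 (· ∈ LA ∅ χ) kχ (fun _ => κ.toZFSet) fun _ => hKχ
  set F : V → V := fun x => ZFSet.pair (Dc (Zc x))
      (ix ∅ (ZFSet.pair (Dc (Zc (Dc x))) (Dc (Dc x)))) with hF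
  have hE' : resS κ.toZFSet F ∈ LA ∅ χ := hE
  refine ⟨resS κ.toZFSet F, hE', fun i hi => ?_, fun l hlκ b hb y hy => ?_⟩
  · rw [app_resS (Ordinal.toZFSet_mem_toZFSet_iff.2 hi)]
    obtain ⟨z, hz, hz'⟩ := Zc_le i
    obtain ⟨b, hb, hb'⟩ := Dc_le z
    refine ⟨b, hb.trans hz, ix ∅ (ZFSet.pair (Dc (Zc (Dc i.toZFSet))) (Dc (Dc i.toZFSet))),
      ?_, ?_⟩
    · have h1 := (hTi _ _ Tm.empty (Tm.pair (tm_Dc (tm_Zc (tm_Dc (Tm.var 0))))
        (tm_Dc (tm_Dc (Tm.var 0))))).1 (· ∈ LA ∅ κ) kκ (fun _ => i.toZFSet)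
        fun _ => (hκ i).2 hi
      exact h1
    · simp only [hF]
      rw [hz', hb']
  · obtain ⟨ρ', hρ', hy'⟩ := (mem_Lh_limit hl).1 hy
    obtain ⟨ρ, ξ, hρ, hξ, he⟩ := hix (· ∈ LA ∅ κ) kκ ∅ h0κ y ⟨ρ', (hκ _).2 hρ', hy'⟩
    obtain ⟨c, -, hc, hc1, hc2⟩ := code hcl hl (hl.pos) ((hκ _).1 hρ) ((hκ _).1 hξ)
    obtain ⟨i, hli, hi, hi1, hi2⟩ := code hcl hl hlκ hb hc
    refine ⟨i, hli, hi, ?_⟩
    rw [app_resS (Ordinal.toZFSet_mem_toZFSet_iff.2 hi)]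
    simp only [hF]
    rw [hi1, hi2, hc1, hc2, he]

end CAA
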